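import Pool.Agent.H941.ST.Top
import Pool.Agent.H941.ST.Root

/-!
# The local topological zeta functions of forms with transversal components

Let `f` be a form of degree `d` in three variables, of one of the following two types:

* `SmoothComp`: `f = h ^ m g`, where `h` is a form of degree `e ≥ 2` such that the curve `h = 0` is
  smooth, `m ≥ 1`, and `g` is an ARBITRARY form: the only condition is that the reduced curve `G = 0`
  of the zeros of `g` is transversal to the curve `h = 0`;
* `TwoLines`: `f = l₀ ^ m₀ l₁ ^ m₁ g`, where `l₀`, `l₁` are linear forms with different lines of zeros,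
  `m₀, m₁ ≥ 1`, and `g` is an ARBITRARY form: the only condition is that the curve `g = 0`, which has
  the degree `N ≥ 2` as a reduced curve, meets each of the two lines in `N` different points and does
  not contain the intersection point of the two lines.

There is no condition on the multiplicities of the components of `g = 0` and on the singularities
of this curve (which may be as bad as one likes, and not quasi-homogeneous), and the smooth curve
need not be generic.

**The local topological zeta function** is taken from the spaces of jets with origin `0` (`zetaO`,
`IsTopZeta`, starting library). **All other poles** of the zeta function are roots of `b`: outside of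
the vertex the zeta function is locally one of a polynomial in two variables, see `MAL` (helper940's
and helper942's modules and the library: Loeser's theorem with multiplicities over the field `ℂ`, cones
over plane curves). So the question is whether `b(-3/d) = 0`.

The proof of `b(-3/d) = 0` for `SmoothComp`; put `s = -3/d` and let `s < 0` be no root of `b`, and
`3 m ≠ d` (if `3 m = d`, then `-3/d = -1/m` is a root, which comes from the smooth curve, `curve_root'`):

* `bertini`: a line meets the reduced curve `Q = h G = 0` in `N = deg Q` points; let it be the line at
  infinity for the affine coordinates `t = x₀`, `x₁ = 1`, `x = x₂`;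
* `exact_two'`, `dat`: the functional equation gives (by `root_of_not_exact`, in the library)
  `f ^ s = ∂_t (P f ^ (s - K)) + ∂_x (R f ^ (s - K))` with polynomials; over the field `ℂ(t)` the
  order of the pole along `Q = 0` can be reduced to one;
* `Dat.ode`, `fin_pt`, `lim_inf'`: let `a_1(t), …, a_N(t)` be the roots of `Q(t, 1, x)`. The residues
  `y_j(t)` of the primitive at these roots satisfy a linear differential system. As all exponents
  are negative, an energy identity shows that they are bounded at all finite points, and
  that `y_j = O(t ^ 3)` at infinity;
* `poly`: so the primitive `f ^ s = ∂_t (p f ^ s / Q) + ∂_x (ρ f ^ s / Q)` has polynomials `p, ρ`;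
* `step1`, `step3`: there is a polynomial `Z` of the total degree at most three, such that, after
  subtracting `∂_t (∂_x (Z f ^ s)) - ∂_x (∂_t (Z f ^ s))`, the vector field `(p, ρ)` vanishes twice on
  the curve `h = 0`. Here the smoothness, the transversality, and `3 m ≠ d` are used;
* `Full.fin`, `Full.inf`, `van`: the functions `(y_j - Z(t, a_j)) / h(t, a_j) ^ 2` on the curve `G = 0`
  are bounded at all finite points, and have the limit `0` at infinity, because `2 e > 3`. By the
  theorem of Liouville they are `0`;
* `fin_alg`: then the primitive is of the form `∂_t (∂_x (Z f ^ s)) - ∂_x (∂_t (Z f ^ s))` up to a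
  vector field of too large degree, and this is a contradiction.

The proof for `TwoLines`, where the two lines are `t = 0` and `t = ∞` and `(0 : 0 : 1)` is their
point of intersection (`stage0`, `Cl.red`, `normal`, `special`, `point`, `Data.ode`, `loc`,
`energy`, `contra`): with `e = s m₀`, the residues satisfy
`y_j' + (e / t) y_j + ∑_i b_i (y_j - y_i) (a_j - a_i)' / (a_j - a_i) = a_j' t / (e + 1)`, where
`b_i = s n_i < 0`. By the energy identity `y_i(t₀) = y_j(t₀)` if `a_i(t₀) = a_j(t₀)`, `t₀ ≠ 0, ∞`. The
functions `z_j = y_j / t ^ 2` are bounded at `t = 0`, and have DIFFERENT limits at `t = ∞`. So the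
symmetric function `∏_{i ≠ j} (z_i - z_j)` is a constant which is not zero. Therefore the `a_j(t₀)`
are different for all `t₀`; then `1 / ∏_{i ≠ j} (a_i - a_j)` is an entire function with the limit `0`
at infinity, a contradiction.
-/

set_option autoImplicit false

namespace Pool.Agent.Results.MP_6163c8_ag.TransversalComponents

open MvPolynomial Pool.Agent.H941.SC Pool.Agent.H941.TF
open Pool.Agent.W428.MOT (MK Lu)
open Pool.Agent.TH192.MT (zetaO)
open Pool.Agent.TH192.MU (IsTopZeta)
open Pool.Agent.H628R4.TP (IsBFunction IsLocalBFunction)

/-- **Q1 for the germs at the origin, for the forms `f` of degree `d` in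
three variables of the following types: `f = h ^ m g` with a smooth curve `h = 0` of degree at least two,
transversal to the reduced curve `g = 0` (`SmoothComp`), or `f = l₀ ^ m₀ l₁ ^ m₁ g` with two different
lines, which are transversal to the reduced curve `g = 0` of degree at least two and meet outside of it
(`TwoLines`)**.

`Z` is the local topological zeta function of `f` at the origin (`IsTopZeta E ε (zetaO f) Z`: for
`s = 1, 2, …`, `Z(s)` is the value under `ε` of the local motivic zeta function of `f` at `T = 𝕃 ^ (-s)`, after a
realisation `E` with values in a domain `R`, where `ε (E 𝕃) = 1` and `E 𝕃 ≠ 1`; for instance the Euler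
characteristic, from the Hodge-Deligne polynomials), `s₀` is a pole of `Z`, and `b` satisfies
`b(s) f ^ s = P(s) f ^ (s + 1)`, where `P(s)` is a differential operator with formal power series
coefficients, polynomial in `s` (for instance the local `b_f`). Then `b(s₀) = 0`; moreover
`b(-3/d) = 0`. -/
theorem result (f : MvPolynomial (Fin 3) ℂ) (d : ℕ) (hf : f.IsHomogeneous d)
    (hc : (∃ m, SmoothComp m f) ∨ TwoLines f)
    {R : Type} [CommRing R] [IsDomain R] (E : MK ℂ →+* R) (ε : R →+* ℂ)
    (hε : ε (E ((Lu ℂ : (MK ℂ)ˣ) : MK ℂ)) = 1) (hE : E ((Lu ℂ : (MK ℂ)ˣ) : MK ℂ) ≠ 1)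
    (Z : RatFunc ℂ) (hZ : IsTopZeta E ε (zetaO f) Z)
    (b : Polynomial ℂ) (hb : IsLocalBFunction f b) :
    b.eval (-3 / d : ℂ) = 0 ∧ ∀ s₀ : ℂ, Z.denom.eval s₀ = 0 → b.eval s₀ = 0 := by
  have hr := Pool.Agent.H941.ST.trans_root hf hc
  exact ⟨hr.2.2 b (Pool.Agent.H941.TF.glob hr.2.1 hf (Or.inr hb)), fun s₀ hs =>
    Pool.Agent.H940.P.mal_top E ε hε hE (Pool.Agent.H941.ST.ma_mal hf hr).2 Z hZ s₀ hs b hb⟩

end Pool.Agent.Results.MP_6163c8_ag.TransversalComponents
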